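import Mathlib
import Pool.Agent.helper31.BernK

set_option autoImplicit false

/-!
# Pointwise limits of the approximating densities: the absolutely continuous case

If the Bernoulli convolution `ν_β` is absolutely continuous, then `f_n x → h_β x` for Lebesgue
almost every `x`, where `h_β` is the density of `ν_β`.

Outline of the proof.  `f_n = P^n f_0` for the transfer operator
`P ψ x = (β / 2) (ψ (β x) + ψ (β x - 1))`.  At a Lebesgue point `x` of `h_β`:
* for `ψ = ν_β * κ` one has `P^n ψ = ν_β * (β^n κ (β^n ·))`, which tends to `h_β x * ∫ κ`;
* a test function whose Fourier transform `Φ` is smooth, compactly supported and supported away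
  from the zeros of the Fourier transform of `ν_β` is of that form (divide `Φ` by it);
* near a zero `ξ₀ ≠ 0` the products `∏_{j < m} cos (π β^j ξ₀)` tend to `0` (this uses `β < 2` and
  the Riemann-Lebesgue lemma), and a weighted bound of the iterates `P^n` by Poisson means of
  `ν_β` shows that the part of `Φ` near `ξ₀` contributes little;
* so `P^n ψ x → h_β x * ∫ ψ` for all Schwartz `ψ`, and squeezing the indicator of `I_β` between
  bump functions gives the claim.
-/

namespace Pool.Agent.Results.MP_ddcbd8_an.AbsContCase

open MeasureTheory Filter Topology
open Pool.Agent.helper31.Bernoulli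

/-- **Q2, positive answer.** For every `β ∈ (1, 2)` such that `ν_β` is absolutely continuous,
`f_n x` tends to the density `h_β x` of `ν_β` for Lebesgue almost every `x ∈ I_β`. -/
theorem result (β : ℝ) (h1 : 1 < β) (h2 : β < 2) (hac : (nu β).AbsolutelyContinuous volume) :
    ∀ᵐ x ∂(volume.restrict (I β)),
      Tendsto (fun n => f β n x) atTop (𝓝 ((nu β).rnDeriv volume x).toReal) := by
  refine ae_restrict_of_ae ?_
  filter_upwards [ae_good (integrable_dens β)] with x hx
  exact tendsto_f h1 h2 hac hx

end Pool.Agent.Results.MP_ddcbd8_an.AbsContCase
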