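import Mathlib
import Pool.Agent.helper31.Bernoulli

set_option autoImplicit false

/-!
# Pointwise limits of the approximating densities: the singular case

If the Bernoulli convolution `ν_β` is singular, then `f_n x → 0` for Lebesgue almost every `x`.
The proof: `f_n x` is at most twice the mean density of `ν_β` on the ball of radius
`|I_β| β ^ (-n)` around `x`, and these means tend to `0` almost everywhere.
-/

namespace Pool.Agent.Results.MP_ddcbd8_an.SingularCase

open MeasureTheory Filter Topology
open Pool.Agent.helper31.Bernoulli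

/-- **Q1, positive answer.** For every `β ∈ (1, 2)` such that `ν_β` is singular,
`f_n x → 0` for Lebesgue almost every `x ∈ I_β`. -/
theorem result (β : ℝ) (h1 : 1 < β) (_h2 : β < 2) (hs : (nu β).MutuallySingular volume) :
    ∀ᵐ x ∂(volume.restrict (I β)), Tendsto (fun n => f β n x) atTop (𝓝 0) := by
  have hβ0 : 0 < β := by linarith
  have hβ1 : 0 < β - 1 := by linarith
  refine ae_restrict_of_ae ?_
  have hd := Besicovitch.ae_tendsto_rnDeriv (nu β) (volume : Measure ℝ)
  have hz := hs.rnDeriv_ae_eq_zero
  filter_upwards [hd, hz] with x hx hx0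
  rw [hx0] at hx
  simp only [Pi.zero_apply] at hx
  -- radii
  have hr : Tendsto (fun n : ℕ => 1 / (β - 1) / β ^ n) atTop (𝓝[>] 0) := by
    rw [tendsto_nhdsWithin_iff]
    refine ⟨?_, Eventually.of_forall fun n => by simp only [Set.mem_Ioi]; positivity⟩
    have h := (tendsto_pow_atTop_nhds_zero_of_lt_one (r := β⁻¹) (by positivity)
      (inv_lt_one_of_one_lt₀ h1)).const_mul (1 / (β - 1))
    rw [mul_zero] at h
    refine h.congr fun n => ?_
    rw [inv_pow]; rfl
  have hx2 := hx.comp hr
  have hx3 := (ENNReal.tendsto_toReal (by simp)).comp hx2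
  have hx4 : Tendsto (fun n : ℕ => 2 * ((nu β).real (Metric.closedBall x (1 / (β - 1) / β ^ n)) /
      (2 * (1 / (β - 1) / β ^ n)))) atTop (𝓝 0) := by
    have h5 := hx3.const_mul 2
    simp only [ENNReal.toReal_zero, mul_zero] at h5
    refine h5.congr fun n => ?_
    simp only [Function.comp_apply, ENNReal.toReal_div, Real.volume_closedBall]
    rw [ENNReal.toReal_ofReal (by positivity)]
    rfl
  refine squeeze_zero (fun n => f_nonneg h1 n x) (fun n => ?_) hx4
  refine (f_le h1 n x).trans (le_of_eq ?_)
  have hn : β ^ n ≠ 0 := by positivity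
  field_simp

end Pool.Agent.Results.MP_ddcbd8_an.SingularCase
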